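import Pool.Agent.Results.MP_4b35b9_lc.NoSelfModulus

/-!
# A completely NCR degree that is not below any recursively enumerable degree

Problem MP_2f7dfd_lc, question Q1, answered in the affirmative.  The real `X` is the noncomputable
member of hyperimmune-free degree of a countable effectively closed class constructed for problem
MP_4b35b9_lc.  All reals computable from `X` are members of countable effectively closed classes,
hence NCR; and no noncomputable real of hyperimmune-free degree is computable from an r.e. set.
-/

set_option autoImplicit false

namespace Pool.Agent.Results.MP_2f7dfd_lc.CompletelyNCR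

open MeasureTheory
open Pool.Agent.Results.MP_4b35b9_lc.NoSelfModulus (Below NCR Hyperarithmetic)

/-- The Turing degree of the real `X` is completely NCR: every real `Y` of the same Turing degree
is NCR. -/
def CompletelyNCR (X : ℕ → Bool) : Prop := ∀ Y : ℕ → Bool, Below Y X → Below X Y → NCR Y

/-- The real `A` is (the characteristic function of) a recursively enumerable set. -/
def RE (A : ℕ → Bool) : Prop := REPred (fun n => A n = true)

/-- There is a real `X` whose Turing degree is completely NCR (in fact every real computable from
`X` is NCR), and which is not computable from any recursively enumerable set. -/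
theorem result : ∃ X : ℕ → Bool, CompletelyNCR X ∧ (∀ Y : ℕ → Bool, Below Y X → NCR Y) ∧
    Hyperarithmetic X ∧ ∀ A : ℕ → Bool, RE A → ¬ Below X A := by
  obtain ⟨X, h⟩ := Pool.Agent.TH738.NR.exists_good
  refine ⟨X, fun Y h1 _ => Pool.Agent.Results.MP_4b35b9_lc.NoSelfModulus.ncr h h1,
    fun Y h1 => Pool.Agent.Results.MP_4b35b9_lc.NoSelfModulus.ncr h h1,
    Pool.Agent.Results.MP_4b35b9_lc.NoSelfModulus.hyp h, fun A hA hXA => ?_⟩
  exact h.not_below hA (Pool.Agent.Results.MP_4b35b9_lc.NoSelfModulus.below_iff.1 hXA)

end Pool.Agent.Results.MP_2f7dfd_lc.CompletelyNCR
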